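import Mathlib

/-!
# Edges of finite point sets and unique maximizers
-/

open Finset Matrix

namespace Pool.Agent.TH836.ED

variable {ι : Type*} [Fintype ι]

/-- The distinct points `a`, `b` of the finite set `S ⊆ ℝ^ι` lie on an edge of the convex hull of
`S`: some linear functional attains its maximum on `S` at `a` and `b`, and only at points of the
line through `a` and `b`. -/
def Edge (S : Finset (ι → ℝ)) (a b : ι → ℝ) : Prop :=
  a ∈ S ∧ b ∈ S ∧ a ≠ b ∧ ∃ w : ι → ℝ, w ⬝ᵥ b = w ⬝ᵥ a ∧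
    ∀ s ∈ S, w ⬝ᵥ s ≤ w ⬝ᵥ a ∧ (w ⬝ᵥ s = w ⬝ᵥ a → ∃ t : ℝ, s = a + t • (b - a))

/-- The face of `S` in direction `w`. -/
noncomputable def face (S : Finset (ι → ℝ)) (w : ι → ℝ) : Finset (ι → ℝ) :=
  by classical exact S.filter (fun s => ∀ x ∈ S, w ⬝ᵥ x ≤ w ⬝ᵥ s)

lemma mem_face {S : Finset (ι → ℝ)} {w s : ι → ℝ} :
    s ∈ face S w ↔ s ∈ S ∧ ∀ x ∈ S, w ⬝ᵥ x ≤ w ⬝ᵥ s := by
  classical
  simp [face]

lemma lift {S : Finset (ι → ℝ)} {w a b : ι → ℝ} (h : Edge (face S w) a b) : Edge S a b := by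
  classical
  obtain ⟨ha, hb, hab, u, hu, hmax⟩ := h
  have haS := (mem_face.1 ha).1
  have hbS := (mem_face.1 hb).1
  have hwab : w ⬝ᵥ b = w ⬝ᵥ a :=
    le_antisymm ((mem_face.1 ha).2 b hbS) ((mem_face.1 hb).2 a haS)
  have hlt : ∀ s ∈ S, s ∉ face S w → w ⬝ᵥ s < w ⬝ᵥ a := by
    intro s hs hn
    have h1 := (mem_face.1 ha).2 s hs
    rcases h1.lt_or_eq with h2 | h2
    · exact h2
    · exact absurd (mem_face.2 ⟨hs, fun x hx => h2 ▸ (mem_face.1 ha).2 x hx⟩) hn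
  have key : ∀ᶠ ε in nhdsWithin (0 : ℝ) (Set.Ioi 0), ∀ s ∈ S.filter (fun s => s ∉ face S w),
      w ⬝ᵥ s + ε * (u ⬝ᵥ s) < w ⬝ᵥ a + ε * (u ⬝ᵥ a) := by
    rw [Finset.eventually_all]
    intro s hs
    obtain ⟨hs1, hs2⟩ := Finset.mem_filter.1 hs
    have c1 : Filter.Tendsto (fun ε : ℝ => w ⬝ᵥ s + ε * (u ⬝ᵥ s)) (nhdsWithin 0 (Set.Ioi 0))
        (nhds (w ⬝ᵥ s + 0 * (u ⬝ᵥ s))) :=
      ((continuous_const.add (continuous_id.mul continuous_const)).tendsto 0).mono_left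
        nhdsWithin_le_nhds
    have c2 : Filter.Tendsto (fun ε : ℝ => w ⬝ᵥ a + ε * (u ⬝ᵥ a)) (nhdsWithin 0 (Set.Ioi 0))
        (nhds (w ⬝ᵥ a + 0 * (u ⬝ᵥ a))) :=
      ((continuous_const.add (continuous_id.mul continuous_const)).tendsto 0).mono_left
        nhdsWithin_le_nhds
    refine c1.eventually_lt c2 ?_
    simpa using hlt s hs1 hs2
  obtain ⟨ε, hε, hε0⟩ := (key.and self_mem_nhdsWithin).exists
  have hε0' : 0 < ε := hε0
  have hdot : ∀ x, (w + ε • u) ⬝ᵥ x = w ⬝ᵥ x + ε * (u ⬝ᵥ x) := by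
    intro x
    rw [add_dotProduct, smul_dotProduct, smul_eq_mul]
  refine ⟨haS, hbS, hab, w + ε • u, ?_, ?_⟩
  · rw [hdot, hdot, hwab, hu]
  · intro s hs
    rw [hdot, hdot]
    by_cases hsf : s ∈ face S w
    · have h1 := hmax s hsf
      have h2 : w ⬝ᵥ s = w ⬝ᵥ a :=
        le_antisymm ((mem_face.1 ha).2 s hs) ((mem_face.1 hsf).2 a haS)
      refine ⟨?_, ?_⟩
      · rw [h2]
        have := mul_le_mul_of_nonneg_left h1.1 hε0'.le
        linarith
      · intro he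
        apply h1.2
        rw [h2] at he
        have : ε * (u ⬝ᵥ s) = ε * (u ⬝ᵥ a) := by linarith
        exact mul_left_cancel₀ hε0'.ne' this
    · have h1 := hε s (Finset.mem_filter.2 ⟨hs, hsf⟩)
      exact ⟨h1.le, fun he => absurd he h1.ne⟩

lemma dot_self_pos {x : ι → ℝ} (hx : x ≠ 0) : 0 < x ⬝ᵥ x := by
  have h0 : 0 ≤ x ⬝ᵥ x := by
    simp only [dotProduct]
    exact Finset.sum_nonneg (fun i _ => mul_self_nonneg _)
  rcases h0.lt_or_eq with h | h
  · exact h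
  · exact absurd (dotProduct_self_eq_zero.1 h.symm) hx

theorem exists_edge (S : Finset (ι → ℝ)) : (∃ a ∈ S, ∃ b ∈ S, a ≠ b) → ∃ a b, Edge S a b := by
  classical
  induction S using Finset.strongInduction with
  | H S ih =>
    rintro ⟨a0, ha0, b0, hb0, hab⟩
    by_cases hline : ∀ c ∈ S, ∃ t : ℝ, c = a0 + t • (b0 - a0)
    · refine ⟨a0, b0, ha0, hb0, hab, 0, by simp, fun s hs => ⟨by simp, fun _ => hline s hs⟩⟩
    push Not at hline
    obtain ⟨c0, hc0, hc0l⟩ := hline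
    set u : ι → ℝ := b0 - a0 with hu
    have hu0 : u ≠ 0 := sub_ne_zero.2 hab.symm
    have huu := dot_self_pos hu0
    have huab : u ⬝ᵥ a0 < u ⬝ᵥ b0 := by
      have h1 : u ⬝ᵥ u = u ⬝ᵥ b0 - u ⬝ᵥ a0 := by
        conv_lhs => rw [hu]
        rw [dotProduct_sub, ← hu]
      linarith
    obtain ⟨a, haS, hamax⟩ := Finset.exists_max_image S (fun s => u ⬝ᵥ s) ⟨a0, ha0⟩
    have haF : a ∈ face S u := mem_face.2 ⟨haS, hamax⟩
    have hua : u ⬝ᵥ a0 < u ⬝ᵥ a := huab.trans_le (hamax b0 hb0)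
    have haa0 : a ≠ a0 := by
      rintro rfl
      exact lt_irrefl _ hua
    have sub1 : face S u ⊂ S := by
      refine Finset.ssubset_iff_subset_ne.2 ⟨fun x hx => (mem_face.1 hx).1, ?_⟩
      intro he
      have : a0 ∈ face S u := by rw [he]; exact ha0
      exact absurd ((mem_face.1 this).2 a haS) (not_le.2 hua)
    by_cases htwo : ∃ x ∈ face S u, ∃ y ∈ face S u, x ≠ y
    · obtain ⟨x, y, hxy⟩ := ih _ sub1 htwo
      exact ⟨x, y, lift hxy⟩
    push Not at htwo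
    have hult : ∀ x ∈ S, x ≠ a → u ⬝ᵥ x < u ⬝ᵥ a := by
      intro x hx hne
      rcases (hamax x hx).lt_or_eq with h | h
      · exact h
      · exact absurd (htwo x (mem_face.2 ⟨hx, fun y hy => h ▸ hamax y hy⟩) a haF) hne
    have hc : ∃ c ∈ S, ∀ t : ℝ, c ≠ a + t • (a0 - a) := by
      by_contra hcon
      push Not at hcon
      obtain ⟨t1, ht1⟩ := hcon b0 hb0
      obtain ⟨t2, ht2⟩ := hcon c0 hc0
      have e1 : u = (t1 - 1) • (a0 - a) := by
        rw [hu, ht1, sub_smul, one_smul]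
        abel
      have ht11 : t1 - 1 ≠ 0 := by
        intro h0
        rw [h0, zero_smul] at e1
        exact hu0 e1
      apply hc0l ((t2 - 1) / (t1 - 1))
      rw [e1, smul_smul, div_mul_cancel₀ _ ht11, sub_smul, one_smul]
      rw [ht2]
      abel
    obtain ⟨c, hcS, hcl⟩ := hc
    set d : ι → ℝ := a0 - a with hd
    have hd0 : d ≠ 0 := sub_ne_zero.2 haa0.symm
    have hdd := dot_self_pos hd0
    set lam : ℝ := ((c - a) ⬝ᵥ d) / (d ⬝ᵥ d) with hlam
    set z : ι → ℝ := (c - a) - lam • d with hz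
    have hzd : z ⬝ᵥ d = 0 := by
      rw [hz, sub_dotProduct, smul_dotProduct, smul_eq_mul, hlam, div_mul_cancel₀ _ hdd.ne', sub_self]
    have hz0 : z ≠ 0 := by
      intro h0
      apply hcl lam
      have : c - a = lam • d := by rw [hz] at h0; exact sub_eq_zero.1 h0
      rw [← this]
      abel
    have hzz := dot_self_pos hz0
    have hzc : 0 < z ⬝ᵥ (c - a) := by
      have : c - a = z + lam • d := by rw [hz]; abel
      rw [this, dotProduct_add, dotProduct_smul, hzd]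
      simpa using hzz
    set T : Finset (ι → ℝ) := S.filter (fun x => 0 < z ⬝ᵥ (x - a)) with hT
    have hTne : T.Nonempty := ⟨c, Finset.mem_filter.2 ⟨hcS, hzc⟩⟩
    obtain ⟨y, hyT, hymin⟩ := Finset.exists_min_image T
      (fun x => (u ⬝ᵥ (a - x)) / (z ⬝ᵥ (x - a))) hTne
    obtain ⟨hyS, hyz⟩ := Finset.mem_filter.1 hyT
    set ρ : ℝ := (u ⬝ᵥ (a - y)) / (z ⬝ᵥ (y - a)) with hρ
    have hya : y ≠ a := by
      rintro rfl
      simp at hyz
    have hρ0 : 0 ≤ ρ := by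
      rw [hρ]
      refine div_nonneg ?_ hyz.le
      rw [dotProduct_sub]
      linarith [hult y hyS hya]
    set w : ι → ℝ := u + ρ • z with hw
    have hwx : ∀ x, w ⬝ᵥ x - w ⬝ᵥ a = -(u ⬝ᵥ (a - x)) + ρ * (z ⬝ᵥ (x - a)) := by
      intro x
      rw [hw, add_dotProduct, add_dotProduct, smul_dotProduct, smul_dotProduct, dotProduct_sub,
        dotProduct_sub, smul_eq_mul, smul_eq_mul]
      ring
    have hwle : ∀ x ∈ S, w ⬝ᵥ x ≤ w ⬝ᵥ a := by
      intro x hx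
      have h1 := hwx x
      have h3 : 0 ≤ u ⬝ᵥ (a - x) := by
        rw [dotProduct_sub]; linarith [hamax x hx]
      by_cases hxT : 0 < z ⬝ᵥ (x - a)
      · have h2 := hymin x (Finset.mem_filter.2 ⟨hx, hxT⟩)
        have h4 : ρ * (z ⬝ᵥ (x - a)) ≤ u ⬝ᵥ (a - x) := by
          exact (le_div_iff₀ hxT).1 h2
        linarith
      · have h4 : ρ * (z ⬝ᵥ (x - a)) ≤ 0 :=
          mul_nonpos_of_nonneg_of_nonpos hρ0 (not_lt.1 hxT)
        linarith
    have hwy : w ⬝ᵥ y = w ⬝ᵥ a := by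
      have h1 := hwx y
      have h4 : ρ * (z ⬝ᵥ (y - a)) = u ⬝ᵥ (a - y) := by
        rw [hρ, div_mul_cancel₀ _ hyz.ne']
      linarith
    have haF' : a ∈ face S w := mem_face.2 ⟨haS, hwle⟩
    have hyF' : y ∈ face S w := mem_face.2 ⟨hyS, fun x hx => hwy ▸ hwle x hx⟩
    have ha0F : a0 ∉ face S w := by
      intro h
      have h1 := (mem_face.1 h).2 a haS
      have h2 := hwx a0
      rw [← hd, hzd, dotProduct_sub] at h2
      linarith
    have sub2 : face S w ⊂ S := by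
      refine Finset.ssubset_iff_subset_ne.2 ⟨fun x hx => (mem_face.1 hx).1, ?_⟩
      intro he
      exact ha0F (by rw [he]; exact ha0)
    obtain ⟨x, y', hxy⟩ := ih _ sub2 ⟨a, haF', y, hyF', hya.symm⟩
    exact ⟨x, y', lift hxy⟩

/-- A functional that is not constant on any edge has a unique maximizer. -/
theorem unique_max {S : Finset (ι → ℝ)} (hS : S.Nonempty) (w : ι → ℝ)
    (h : ∀ a b, Edge S a b → w ⬝ᵥ (b - a) ≠ 0) :
    ∃ a ∈ S, ∀ s ∈ S, s ≠ a → w ⬝ᵥ s < w ⬝ᵥ a := by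
  classical
  obtain ⟨a, haS, hamax⟩ := Finset.exists_max_image S (fun s => w ⬝ᵥ s) hS
  refine ⟨a, haS, fun s hs hne => ?_⟩
  rcases (hamax s hs).lt_or_eq with h1 | h1
  · exact h1
  exfalso
  have hsF : s ∈ face S w := mem_face.2 ⟨hs, fun y hy => h1 ▸ hamax y hy⟩
  obtain ⟨x, y, hxy⟩ := exists_edge (face S w) ⟨s, hsF, a, mem_face.2 ⟨haS, hamax⟩, hne⟩
  apply h x y (lift hxy)
  have hx := mem_face.1 hxy.1
  have hy := mem_face.1 hxy.2.1
  rw [dotProduct_sub]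
  linarith [hx.2 y hy.1, hy.2 x hx.1]

end Pool.Agent.TH836.ED
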