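import Pool.Agent.TH836.Edge

/-!
# Hitting sets from the edge directions of Newton polytopes
-/

open Finset Matrix

namespace Pool.Agent.TH836.ED

/-- The exponent vectors of the monomials of `f`, as points of `ℝ^n`. -/
noncomputable def points {n : ℕ} {R : Type*} [CommSemiring R] (f : MvPolynomial (Fin n) R) :
    Finset (Fin n → ℝ) :=
  f.support.image (fun m i => (m i : ℝ))

/-- a nonzero integer vector is parallel to a vector that is nonzero modulo every prime -/
lemma primitive {n : ℕ} (d : Fin n → ℤ) (hd : d ≠ 0) :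
    ∃ (e : Fin n → ℤ) (g : ℤ), g ≠ 0 ∧ (∀ i, d i = g * e i) ∧
      ∀ p : ℕ, p.Prime → ∃ i, ¬ (p : ℤ) ∣ e i := by
  classical
  obtain ⟨i0, hi0⟩ := Function.ne_iff.1 hd
  have hi0' : d i0 ≠ 0 := hi0
  obtain ⟨e, he1, he2⟩ := Finset.extract_gcd d (s := Finset.univ) ⟨i0, Finset.mem_univ _⟩
  set g : ℤ := Finset.univ.gcd d with hg
  have hg0 : g ≠ 0 := by
    intro h0
    rw [h0] at he1
    exact hi0' (by rw [he1 i0 (Finset.mem_univ _)]; simp)
  refine ⟨e, g, hg0, fun i => he1 i (Finset.mem_univ _), ?_⟩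
  intro p hp
  by_contra hcon
  push Not at hcon
  have h1 : (p : ℤ) ∣ Finset.univ.gcd e := Finset.dvd_gcd (fun i _ => hcon i)
  rw [he2] at h1
  have h2 := Int.eq_one_of_dvd_one (by positivity) h1
  have : p = 1 := by exact_mod_cast h2
  exact hp.one_lt.ne' this

/-- The substitution `x_i = t ^ w_i` in coordinates. -/
lemma aeval_pow_eq {n : ℕ} {R : Type*} [CommRing R] (f : MvPolynomial (Fin n) R) (w : Fin n → ℕ) :
    MvPolynomial.aeval (fun i => (Polynomial.X : Polynomial R) ^ w i) f =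
      ∑ m ∈ f.support, Polynomial.monomial (∑ i, w i * m i) (MvPolynomial.coeff m f) := by
  rw [MvPolynomial.aeval_def, MvPolynomial.eval₂_eq']
  refine Finset.sum_congr rfl fun m _ => ?_
  have : ∏ i, ((Polynomial.X : Polynomial R) ^ w i) ^ m i = Polynomial.X ^ (∑ i, w i * m i) := by
    rw [← Finset.prod_pow_eq_pow_sum]
    exact Finset.prod_congr rfl fun i _ => (pow_mul _ _ _).symm
  rw [this, ← Polynomial.C_mul_X_pow_eq_monomial]
  rfl

lemma aeval_pow_ne_zero {n : ℕ} {R : Type*} [CommRing R] (f : MvPolynomial (Fin n) R)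
    (w : Fin n → ℕ) (m : Fin n →₀ ℕ) (hm : m ∈ f.support)
    (hmax : ∀ s ∈ f.support, s ≠ m → ∑ i, w i * s i < ∑ i, w i * m i) :
    MvPolynomial.aeval (fun i => (Polynomial.X : Polynomial R) ^ w i) f ≠ 0 := by
  intro h0
  have h1 : (MvPolynomial.aeval (fun i => (Polynomial.X : Polynomial R) ^ w i) f).coeff
      (∑ i, w i * m i) = MvPolynomial.coeff m f := by
    rw [aeval_pow_eq, Polynomial.finsetSum_coeff, Finset.sum_eq_single m]
    · simp
    · intro b hb hne
      rw [Polynomial.coeff_monomial, if_neg (hmax b hb hne).ne]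
    · intro h
      exact absurd hm h
  rw [h0, Polynomial.coeff_zero] at h1
  exact (MvPolynomial.mem_support_iff.1 hm) h1.symm

lemma natDegree_aeval_pow_le {n : ℕ} {R : Type*} [CommRing R] (f : MvPolynomial (Fin n) R)
    (w : Fin n → ℕ) (q : ℕ) (hw : ∀ i, w i ≤ q) :
    (MvPolynomial.aeval (fun i => (Polynomial.X : Polynomial R) ^ w i) f).natDegree ≤
      f.totalDegree * q := by
  rw [aeval_pow_eq]
  refine Polynomial.natDegree_sum_le_of_forall_le _ _ fun m hm => ?_
  refine (Polynomial.natDegree_monomial_le _).trans ?_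
  have h1 : ∑ i, m i ≤ f.totalDegree := by
    have := MvPolynomial.le_totalDegree hm
    rwa [Finsupp.sum_fintype _ _ (fun _ => rfl)] at this
  calc ∑ i, w i * m i ≤ ∑ i, q * m i := Finset.sum_le_sum fun i _ => Nat.mul_le_mul_right _ (hw i)
    _ = (∑ i, m i) * q := by rw [Finset.sum_mul]; exact Finset.sum_congr rfl fun i _ => mul_comm _ _
    _ ≤ f.totalDegree * q := Nat.mul_le_mul_right _ h1

/-- good exponent: one `r` works for all directions -/
lemma good_r {n N : ℕ} (p : ℕ) (hp : p.Prime) (hN : N * (n - 1) < p) (V : Finset (Fin n → ℤ))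
    (hV : V.card ≤ N) (hprim : ∀ e ∈ V, ∃ i, ¬ (p : ℤ) ∣ e i) :
    ∃ r < p, ∀ e ∈ V, ∑ i : Fin n, ((r ^ (i : ℕ) % p : ℕ) : ℤ) * e i ≠ 0 := by
  classical
  have := Fact.mk hp
  let P : (Fin n → ℤ) → Polynomial (ZMod p) := fun e =>
    ∑ i : Fin n, Polynomial.monomial (i : ℕ) ((e i : ℤ) : ZMod p)
  have hcoeff : ∀ e (i : Fin n), (P e).coeff i = ((e i : ℤ) : ZMod p) := by
    intro e i
    simp only [P, Polynomial.finsetSum_coeff, Polynomial.coeff_monomial]
    rw [Finset.sum_eq_single i]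
    · simp
    · intro b _ hb
      rw [if_neg]
      intro h
      exact hb (Fin.ext h)
    · simp
  have hP0 : ∀ e ∈ V, P e ≠ 0 := by
    intro e he h0
    obtain ⟨i, hi⟩ := hprim e he
    have h1 := hcoeff e i
    rw [h0, Polynomial.coeff_zero] at h1
    exact hi ((ZMod.intCast_zmod_eq_zero_iff_dvd _ _).1 h1.symm)
  have hdeg : ∀ e, (P e).natDegree ≤ n - 1 := by
    intro e
    refine Polynomial.natDegree_sum_le_of_forall_le _ _ fun i _ => ?_
    exact (Polynomial.natDegree_monomial_le _).trans (by have := i.2; omega)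
  have hroots : ∀ e, (P e).roots.toFinset.card ≤ n - 1 := fun e =>
    (Multiset.toFinset_card_le _).trans ((Polynomial.card_roots' _).trans (hdeg e))
  have hbad : (V.biUnion fun e => (P e).roots.toFinset).card < (Finset.univ : Finset (ZMod p)).card := by
    calc (V.biUnion fun e => (P e).roots.toFinset).card
        ≤ V.card * (n - 1) := Finset.card_biUnion_le_card_mul _ _ _ fun e _ => hroots e
      _ ≤ N * (n - 1) := Nat.mul_le_mul_right _ hV
      _ < p := hN
      _ = _ := by rw [Finset.card_univ, ZMod.card]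
  obtain ⟨r, -, hr⟩ := Finset.exists_mem_notMem_of_card_lt_card hbad
  refine ⟨r.val, r.val_lt, fun e he h0 => hr ?_⟩
  rw [Finset.mem_biUnion]
  refine ⟨e, he, ?_⟩
  rw [Multiset.mem_toFinset, Polynomial.mem_roots (hP0 e he), Polynomial.IsRoot.def]
  have h1 : ((∑ i : Fin n, ((r.val ^ (i : ℕ) % p : ℕ) : ℤ) * e i : ℤ) : ZMod p) = 0 := by
    rw [h0]; simp
  simp only [P, Polynomial.eval_finsetSum, Polynomial.eval_monomial]
  rw [← h1, Int.cast_sum]
  refine Finset.sum_congr rfl fun i _ => ?_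
  rw [Int.cast_mul]
  have h2 : (((r.val ^ (i : ℕ) % p : ℕ) : ℤ) : ZMod p) = r ^ (i : ℕ) := by
    rw [Int.cast_natCast, ZMod.natCast_mod, Nat.cast_pow, ZMod.natCast_zmod_val]
  have h3 : ((e i : ℤ) : ZMod p) * r ^ (i : ℕ) = (((r.val ^ (i : ℕ) % p : ℕ) : ℤ) : ZMod p) * (e i : ZMod p) := by
    rw [h2, mul_comm]
  exact h3

theorem hit {R : Type*} [CommRing R] [IsDomain R] {n N D : ℕ} (p : ℕ) (hp : p.Prime)
    (hN : N * (n - 1) < p) (A : Finset R) (hA : D * (p - 1) < A.card)
    {J : Type*} (s : Finset J) (f : J → MvPolynomial (Fin n) R) (hf : ∀ j ∈ s, f j ≠ 0)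
    (hD : (∏ j ∈ s, f j).totalDegree ≤ D) (V : Finset (Fin n → ℝ)) (hV : V.card ≤ N)
    (hedge : ∀ j ∈ s, ∀ a b, Edge (points (f j)) a b → ∃ v ∈ V, ∃ t : ℝ, b - a = t • v) :
    ∃ r < p, ∃ x ∈ A, ∀ j ∈ s, MvPolynomial.eval (fun i : Fin n => x ^ (r ^ (i : ℕ) % p)) (f j) ≠ 0 := by
  classical
  -- the directions in use
  let used : (Fin n → ℝ) → Prop := fun v => ∃ e : Fin n → ℤ, (∀ q : ℕ, q.Prime → ∃ i, ¬ (q : ℤ) ∣ e i) ∧
    ∃ t : ℝ, t ≠ 0 ∧ v = t • (fun i => (e i : ℝ))
  have hused : ∀ j ∈ s, ∀ a b, Edge (points (f j)) a b → ∃ v ∈ V, used v ∧ ∃ t : ℝ, t ≠ 0 ∧ b - a = t • v := by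
    intro j hj a b hab
    obtain ⟨v, hv, t, ht⟩ := hedge j hj a b hab
    have hba : b - a ≠ 0 := sub_ne_zero.2 hab.2.2.1.symm
    have ht0 : t ≠ 0 := by
      rintro rfl
      rw [zero_smul] at ht
      exact hba ht
    obtain ⟨ma, -, hma⟩ := Finset.mem_image.1 hab.1
    obtain ⟨mb, -, hmb⟩ := Finset.mem_image.1 hab.2.1
    have hd : (fun i => ((mb i : ℤ) - (ma i : ℤ))) ≠ (0 : Fin n → ℤ) := by
      intro h0
      apply hba
      funext i
      have h1 := congrFun h0 i
      have h2 : (mb i : ℤ) = (ma i : ℤ) := by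
        have : (mb i : ℤ) - (ma i : ℤ) = 0 := h1
        omega
      have h3 : mb i = ma i := by exact_mod_cast h2
      rw [← hma, ← hmb]
      simp [h3]
    obtain ⟨e, g, hg, hge, hprim⟩ := primitive _ hd
    refine ⟨v, hv, ⟨e, hprim, (g : ℝ) / t, div_ne_zero (by exact_mod_cast hg) ht0, ?_⟩, t, ht0, ht⟩
    have h1 : b - a = (g : ℝ) • (fun i => (e i : ℝ)) := by
      funext i
      rw [← hma, ← hmb]
      have := hge i
      have h4 : ((mb i : ℝ) - (ma i : ℝ)) = (g : ℝ) * (e i : ℝ) := by exact_mod_cast this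
      simpa using h4
    have h2 : v = t⁻¹ • (b - a) := by
      rw [ht, smul_smul, inv_mul_cancel₀ ht0, one_smul]
    rw [h2, h1, smul_smul]
    congr 1
    field_simp
  let E : (Fin n → ℝ) → (Fin n → ℤ) := fun v => if h : used v then h.choose else fun _ => 1
  have hE : ∀ v, used v → (∀ q : ℕ, q.Prime → ∃ i, ¬ (q : ℤ) ∣ E v i) ∧
      ∃ t : ℝ, t ≠ 0 ∧ v = t • (fun i => (E v i : ℝ)) := by
    intro v hv
    simp only [E, dif_pos hv]
    exact hv.choose_spec
  obtain ⟨r, hr, hr2⟩ := good_r p hp hN ((V.filter used).image E)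
    (Finset.card_image_le.trans ((Finset.card_filter_le _ _).trans hV)) (by
      intro e he
      obtain ⟨v, hv, rfl⟩ := Finset.mem_image.1 he
      exact (hE v (Finset.mem_filter.1 hv).2).1 p hp)
  let w : Fin n → ℕ := fun i => r ^ (i : ℕ) % p
  have hwp : ∀ i, w i ≤ p - 1 := fun i => by
    have := Nat.mod_lt (r ^ (i : ℕ)) hp.pos
    show r ^ (i : ℕ) % p ≤ p - 1
    omega
  have hg : ∀ j ∈ s, MvPolynomial.aeval (fun i => (Polynomial.X : Polynomial R) ^ w i) (f j) ≠ 0 := by
    intro j hj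
    have hne : (points (f j)).Nonempty := by
      obtain ⟨m, hm⟩ := MvPolynomial.support_nonempty.2 (hf j hj)
      exact ⟨_, Finset.mem_image_of_mem _ hm⟩
    obtain ⟨a, ha, hamax⟩ := unique_max hne (fun i => (w i : ℝ)) (by
      intro a b hab h0
      obtain ⟨v, hv, hvu, t, ht0, ht⟩ := hused j hj a b hab
      obtain ⟨-, t', ht', hvt⟩ := hE v hvu
      apply hr2 (E v) (Finset.mem_image_of_mem _ (Finset.mem_filter.2 ⟨hv, hvu⟩))
      rw [ht, hvt, dotProduct_smul, dotProduct_smul, smul_eq_mul, smul_eq_mul] at h0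
      have h1 : (fun i => (w i : ℝ)) ⬝ᵥ (fun i => ((E v i : ℤ) : ℝ)) = 0 := by
        rcases mul_eq_zero.1 h0 with h | h
        · exact absurd h ht0
        · rcases mul_eq_zero.1 h with h | h
          · exact absurd h ht'
          · exact h
      simp only [dotProduct] at h1
      have h2 : ((∑ i : Fin n, ((r ^ (i : ℕ) % p : ℕ) : ℤ) * E v i : ℤ) : ℝ) = 0 := by
        rw [← h1]
        push_cast
        rfl
      exact_mod_cast h2)
    obtain ⟨m, hm, hma⟩ := Finset.mem_image.1 ha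
    refine aeval_pow_ne_zero (f j) w m hm fun m' hm' hne' => ?_
    have h1 := hamax (fun i => (m' i : ℝ)) (Finset.mem_image_of_mem _ hm') (by
      intro h
      apply hne'
      ext i
      have h5 := congrFun h i
      rw [← hma] at h5
      have h6 : (m' i : ℝ) = (m i : ℝ) := h5
      exact_mod_cast h6)
    rw [← hma] at h1
    simp only [dotProduct] at h1
    exact_mod_cast h1
  have hprod : ∏ j ∈ s, MvPolynomial.aeval (fun i => (Polynomial.X : Polynomial R) ^ w i) (f j) ≠ 0 :=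
    Finset.prod_ne_zero_iff.2 hg
  have hdeg : (∏ j ∈ s, MvPolynomial.aeval (fun i => (Polynomial.X : Polynomial R) ^ w i) (f j)).natDegree
      < A.card := by
    rw [← map_prod]
    exact ((natDegree_aeval_pow_le _ w (p - 1) hwp).trans (Nat.mul_le_mul_right _ hD)).trans_lt hA
  have hex : ∃ x ∈ A, Polynomial.eval x
      (∏ j ∈ s, MvPolynomial.aeval (fun i => (Polynomial.X : Polynomial R) ^ w i) (f j)) ≠ 0 := by
    by_contra hcon
    push Not at hcon
    exact hprod (Polynomial.eq_zero_of_natDegree_lt_card_of_eval_eq_zero' _ A hcon hdeg)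
  obtain ⟨x, hx, hxe⟩ := hex
  refine ⟨r, hr, x, hx, fun j hj h0 => hxe ?_⟩
  rw [Polynomial.eval_prod]
  refine Finset.prod_eq_zero hj ?_
  rw [aeval_pow_eq, Polynomial.eval_finsetSum]
  rw [MvPolynomial.eval_eq'] at h0
  rw [← h0]
  refine Finset.sum_congr rfl fun m _ => ?_
  rw [Polynomial.eval_monomial]
  congr 1
  rw [← Finset.prod_pow_eq_pow_sum]
  exact Finset.prod_congr rfl fun i _ => pow_mul _ _ _

end Pool.Agent.TH836.ED
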